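import Pool.Agent.W5h83.CDE.Good

/-!
# The Charney-Davis inequality with a correction term, for all flag homology spheres

Let `L` be a flag homology sphere of dimension `2 m - 1`, the flag complex of the graph `G`, and `U` a set of vertices
obtained from the set of all vertices by deleting one by one vertices with good links (class `Core` in
`Pool/Agent/W5h83/CDE/Core.lean`): the link of the vertex in `L` is a reducible flag sphere (class `RedT` in
`Pool/Agent/W5h14/TW/Def.lean`), or its link in the full subcomplex on the remaining vertices is in the class `AS`
(in `Pool/Agent/W5h83/GT/ConeDef.lean`). We prove `(-1)^m (λ(L) - 2 λ_{>m}(L[U])) ≥ 0`, where `λ_{>m}(L[U])`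
(`lamAbove` in `Pool/Agent/W5h83/CDE/Def.lean`) is the sum of `(-1/2)^|T|` over the cliques `T ⊆ U` with more than `m`
vertices.

So the Charney-Davis inequality holds with a correction term which depends only on the full subcomplex on the bad
vertices. It vanishes if each clique with `m + 1` vertices contains a good vertex.

For `m = 3`: let `U` be the set of the vertices whose links (flag 4-spheres) have at least 14 vertices and no vertex
whose non-neighbours in the link span a tree. Then `- λ(L) ≥ - k_4 / 8 + k_5 / 16 - k_6 / 32`, where `k_i` is the number of cliques
with `i` vertices in `U`.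

`chiW G` is the Charney-Davis quantity `λ(L)`: the sum of `(-1/2)^|T|` over all cliques `T` of `G`. `HSph n G`: `L` is
a real homology manifold with the real homology of the `(n-1)`-sphere.
-/

set_option autoImplicit false

namespace Pool.Agent.Results.MP_fd533b_co.CorrectedInequality

open Pool.Agent.W907.SG Pool.Agent.TH652.Above Pool.Agent.W5h83.FS Pool.Agent.W5h14.TV Pool.Agent.W5h83.CDE

/-- Let the flag complex `L` of the finite graph `G` be a real homology sphere of dimension `2 m - 1`, and `U` a set
of vertices.
(1) If `U` is a core of `L` then `(-1)^m (λ(L) - 2 λ_{>m}(L[U])) ≥ 0`.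
(2) If all vertices outside `U` are good (`GoodVertex` in `Pool/Agent/W5h14/TV/EvenCrit.lean`: at most `5 m - 2`
neighbours, or the link of each simplex of odd type `k = 2 m - |σ| ≥ 5` with this vertex has at most `(5 k + 2) / 2`
vertices or a vertex whose non-neighbours in the link span a tree) and `m ≥ 1`, then `U` is a core of `L`. -/
theorem result : ∀ (m : ℕ) (V : Type) [Fintype V] [LinearOrder V] (G : SimpleGraph V) (U : Finset V),
    HSph (2 * m) G →
    (Core m G U → 0 ≤ (-1 : ℚ) ^ m * (chiW G - 2 * lamAbove G (U : Set V) m)) ∧
    (1 ≤ m → (∀ v, v ∉ U → GoodVertex (2 * m) G v) → Core m G U) := by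
  intro m V _ _ G U hS
  exact ⟨fun h => cd_corr hS U (h.lv hS), fun hm hc => core_good hm U hc⟩

end Pool.Agent.Results.MP_fd533b_co.CorrectedInequality
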