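import Pool.Agent.W5h14.TW.CDMain
import Pool.Agent.W5h14.TW.Crit
import Pool.Agent.W5h14.TV.OfH

/-!
# The Charney-Davis inequality for the flag spheres which can be contracted to reducible ones

Let `L` be a flag homology sphere of dimension `2 m - 1`, the flag complex of the graph `G`. We prove the
Charney-Davis inequality `(-1)^m λ(L) ≥ 0` for the class `CDT` defined in `Pool/Agent/W5h14/TW/CDDef.lean`. Its base
are the reducible flag spheres (class `RedT` defined in `Pool/Agent/W5h14/TW/Def.lean`), and it is closed under
vertex splitting (the inverse of the contraction of an edge in no induced 4-cycle) with a condition on the link of the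
edge, and under connected sums along links of vertices.

A flag sphere of dimension `2 m - 1` is reducible if the vertices whose links are not reducible span no
`(m + 2)`-clique and fewer than `2 ^ (m + 1)` cliques with `m + 1` elements. The links of the vertices with at most
`5 m - 2` neighbours are reducible.
The links of the vertices are flag spheres of dimension `2 m - 2`, and they are reducible if they can be transformed,
by contractions of edges in no induced 4-cycle and by cutting along full homology spheres of dimension one less, to
flag spheres with a vertex whose non-neighbours span a tree or with few vertices, with conditions on the links of the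
contracted edges and of the vertices.

For `m = 3`, the first open case, the conditions on the links of the contracted edges and on the links of the vertices
of flag 4-spheres are empty. So the inequality holds for all flag 5-spheres such that at most 15 cliques with four elements
and no clique with five elements contain no vertex whose link can be transformed in this way to flag 4-spheres with such
a vertex, for example to suspensions, or to flag 4-spheres with at most 13 vertices, and for all flag 5-spheres which
are obtained from these by vertex splittings and connected sums.

`chiW G` is the Charney-Davis quantity `λ(L)`: the sum of `(-1/2)^|T|` over all cliques `T` of `G`. `HSph n G`: `L` is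
a real homology manifold with the real homology of the `(n-1)`-sphere.
-/

set_option autoImplicit false

namespace Pool.Agent.Results.MP_fd533b_co.ReducibleSpheres

open Pool.Agent.W907.SG Pool.Agent.TH652.Above Pool.Agent.W5h83.FS Pool.Agent.W5h14.TV Pool.Agent.W5h14.TW

/-- Let the flag complex `L` of the finite graph `G` be a real homology sphere of dimension `2 m - 1`.
(1) If `L` is in the class `CDT` then `(-1)^m λ(L) ≥ 0`.
(2) If the link of each simplex `σ` of odd type `k = 2 m - |σ| ≥ 5` has at most `(5 k + 2) / 2` vertices or a vertex
whose non-neighbours in the link span a tree, then `L` is in `CDT`.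
(3) Let `m ≥ 1`, and let `U` be a set of vertices which contains all vertices that are not good (`GoodVertex`: a vertex
with at most `5 m - 2` neighbours, or such that the condition of (2) holds for all simplices `σ` which contain it). If
there is no clique with more than `m + 1` elements in `U`, and fewer than `2 ^ (m + 1)` cliques with `m + 1` elements,
then `L` is in `CDT`. For `m = 3` a vertex is good if its link has at most 13 vertices or a vertex whose non-neighbours
in the link span a tree. -/
theorem result : ∀ (m : ℕ) (V : Type) [Fintype V] [LinearOrder V] (G : SimpleGraph V), HSph (2 * m) G →
    (CDT m G Finset.univ → 0 ≤ (-1 : ℚ) ^ m * chiW G) ∧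
    ((∀ (σ : Finset V) (j : ℕ), G.IsClique (σ : Set V) → σ.card + (2 * j + 5) = 2 * m →
      2 * (lkF G σ).card ≤ 5 * (2 * j + 5) + 2 ∨ ∃ v ∈ lkF G σ, SpansTree G (mn G (lkF G σ) v)) →
      CDT m G Finset.univ) ∧
    (∀ U : Finset V, 1 ≤ m → (∀ x, x ∉ U → GoodVertex (2 * m) G x) →
      (∀ T : Finset V, T ⊆ U → G.IsClique (T : Set V) → T.card ≤ m + 1) →
      (cliques G (m + 1) U).card < 2 ^ (m + 1) → CDT m G Finset.univ) := by
  classical
  intro m V _ _ G hS
  refine ⟨fun h => ?_, fun hc => CDT.base m G _ (redT_of_red (red_univ hc)), ?_⟩
  · have h1 := cdt_main h (HS.of_hsph hS)
    rwa [lamF_univ] at h1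
  · intro U hm h1 h3 h4
    obtain ⟨k, rfl⟩ : ∃ k, m = k + 1 := ⟨m - 1, by omega⟩
    have e1 : 2 * (k + 1) = 2 * k + 2 := by ring
    refine CDT.base (k + 1) G _ ?_
    rw [e1] at h1 ⊢
    exact redT_even_crit U h1 h3 h4 true

end Pool.Agent.Results.MP_fd533b_co.ReducibleSpheres
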